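import Pool.Agent.Helper305_Countryman.G

set_option autoImplicit false

/-!
# Under CH there is an `ω₂`-Countryman line which is not minimal

The continuum hypothesis implies that there are an `ω₂`-Countryman line `L` and a subset `L'` of `L`
with more than `ℵ₁` points such that `L` does not embed into `L'`.

Sketch. Let `e(ξ, β)` be the maximum of the weights of the steps of a walk from `β` down to `ξ`
which uses minimal-index steps through a fixed enumeration of `β` in type `ω₁`; the weight of a step
from `β` is its index together with a colour `k(β)`, where the two colour classes of `k` are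
stationary in the points of cofinality `ω₁`. The line `L` consists of all functions that agree with
some fibre `e(·, α)` up to a countable set, ordered lexicographically (an initial segment comes
first), and `L'` is the set of the fibres themselves. Under CH the square of `L` is a union of `ℵ₁`
chains. A strictly increasing map from `L` to `L'` would be continuous on the levels of a club, and
one builds a node whose image is a fibre with an infinite sequence of strict records of alternating
colours. The walk does not allow such a sequence.
-/

namespace Pool.Agent.Results.MP_9648eb_lc.NotAllMinimal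

open Cardinal

/-- `L` is an `ω₂`-Countryman line: it has more than `ℵ₁` points, and `L × L`, ordered
coordinatewise, is the union of `ℵ₁` many chains. -/
def IsOmegaTwoCountryman (L : Type) [LinearOrder L] : Prop :=
  ℵ₁ < #L ∧ ∃ (ι : Type) (C : ι → Set (L × L)), #ι = ℵ₁ ∧
    (∀ i, IsChain (fun p q : L × L => p.1 ≤ q.1 ∧ p.2 ≤ q.2) (C i)) ∧ (⋃ i, C i) = Set.univ

/-- There is an order-preserving injection of `L` into its subset `L'`. -/
def EmbedsInto (L : Type) [LinearOrder L] (L' : Set L) : Prop :=
  ∃ f : L → L', Function.Injective f ∧ Monotone f

/-- Assume the continuum hypothesis. Then there are an `ω₂`-Countryman line `L` and a subset `L'`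
of `L` with more than `ℵ₁` points such that `L` does not embed into `L'`. -/
theorem result (hCH : (2 : Cardinal.{0}) ^ (ℵ₀ : Cardinal.{0}) = ℵ₁) :
    ∃ (L : Type) (_ : LinearOrder L), IsOmegaTwoCountryman L ∧
      ∃ L' : Set L, ℵ₁ < #L' ∧ ¬ EmbedsInto L L' := by
  obtain ⟨L, instL, hL, ⟨ι, C, hι, hC, hU⟩, X, hX, hno⟩ :=
    Pool.Agent.Helper305_Countryman.main hCH
  refine ⟨L, instL, ⟨hL, ι, C, hι, fun i => ?_, hU⟩, X, hX, ?_⟩
  · intro p hp q hq hpq
    exact hC i hp hq hpq
  · rintro ⟨f, hinj, hmono⟩
    refine hno (fun x => (f x).1) ?_ (fun x => (f x).2)
    intro x y hxy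
    exact lt_of_le_of_ne (hmono hxy.le) fun h => hxy.ne (hinj (Subtype.ext h))

end Pool.Agent.Results.MP_9648eb_lc.NotAllMinimal
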